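import Pool.Agent.H85.TG.Defs
import Pool.Agent.H13.LK.Defs

/-!
# Times with live windows: pointwise domination, the class of Plan C

`Fam.TGD`: the conditional law of the time is dominated by the kernel, pointwise. This is
hereditary for all events, without any regularity of the law of the lines. `LKG`: the label
inequality for times with live windows. `FCv`: a class of families for which it fails, hereditarily.
-/

set_option autoImplicit false

namespace Pool.KA

open Finset Real
open Pool.Agent.H49.Ent Pool.Agent.H32.Dense Pool.STK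

variable {m J : ℕ}

/-- The conditional probability of the time, given the line and the side information, is at most
`exp e` times the kernel. -/
def Fam.Dom (F : Fam m J) (μ : F.Ω → ℕ → ℝ) (e : ℝ) : Prop :=
  ∀ ω, 0 < F.p ω →
    cpr F.p F.T (fun w => (F.l w, F.Z w)) ω ≤ Real.exp e * μ ω (F.T ω)

/-- **Times with live windows**, pointwise. -/
def Fam.TGD (F : Fam m J) (s : Prop) (K : ℕ) (η r n e : ℝ) : Prop :=
  ∃ μ : F.Ω → ℕ → ℝ, F.Ker μ ∧ (s → Det F.p F.Z μ) ∧ F.Live μ K η r n ∧ F.Dom μ e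

/-- The information of the exact point on the line, given the side information. -/
noncomputable def Fam.Vf (F : Fam m J) : ℝ :=
  CH F.p (fun ω => (F.X J ω, F.T ω)) F.Z - CH F.p F.T (fun ω => (F.l ω, F.Z ω))

open Classical in
/-- Helper9's hereditary rate class. -/
def Fam.HR (F : Fam m J) (K : ℕ) (η e₀ : ℝ) (ψ : ℝ → ℝ) : Prop :=
  ∀ s, e₀ ≤ s → ∀ B : F.Ω → Prop, Real.exp (-(ψ s * J)) ≤ law F.p B True →
    ∑ i ∈ range (J / K), (∑ ω, if
      H (cond (cond F.p B True) (fun w => (F.T1 (i * K) w, (F.l w, F.Z w)))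
        (F.T1 (i * K) ω, (F.l ω, F.Z ω))) (F.T1 ((i + 1) * K)) < η * (K * Real.log 2)
      then cond F.p B True ω else 0) ≤ s * J / K

end Pool.KA

namespace Pool.LK

open Finset Real
open Pool.Agent.H49.Ent Pool.Agent.H32.Dense Pool.STK Pool.KA Pool.KSAT Pool.K2S

/-- **The label inequality for times with live windows.** -/
def LKG (m : ℕ) (b : ℝ) : Prop :=
  ∀ ε > 0, ∃ η > 0, ∀ K : ℕ, ∃ θ > 0, ∃ J₀ : ℕ, ∀ J ≥ J₀, ∀ F : Fam m J,
    F.TG False K η 0 (η * J) (θ * J) → ∃ B : Lbl F b, B.cost ≤ F.Vf + ε * J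

/-- The label inequality fails by `R J`, for all restrictions to events of probability at least
`exp (-τ J)`. -/
def Umv {m J : ℕ} (F : Fam m J) (b R τ : ℝ) : Prop :=
  ∀ (A : F.Ω → Prop) (h : IsLaw (Pool.Agent.H49.Ent.cond F.p A True)),
    Real.exp (-(τ * J)) ≤ law F.p A True → ∀ B : Lbl (F.res A True h) b,
      (F.res A True h).Vf + R * J ≤ B.cost

/-- The class: `K`, `η`, `R` are fixed. -/
def Clv {m J : ℕ} (F : Fam m J) (b : ℝ) (K : ℕ) (η R τ : ℝ) : Prop :=
  F.Tr ∧ F.TGD False K η 0 (η * J) (τ * J) ∧ Umv F b R τ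

end Pool.LK
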