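import Pool.Agent.H85.TG.DRS

/-!
# Times with live windows: half of any event (DSU)
-/

set_option autoImplicit false

namespace Pool.KA

open Finset Real
open Pool.Agent.H49.Ent Pool.Agent.H32.Dense Pool.STK

variable {m J : ℕ}

open Classical in
theorem law_cond_true {Ω S : Type} [Fintype Ω] {p : Ω → ℝ} (U : Ω → Prop) (X : Ω → S) (x : S) :
    law (cond p U True) X x = (∑ w, if X w = x ∧ U w then p w else 0) / law p U True := by
  unfold law
  rw [Finset.sum_div]
  refine Finset.sum_congr rfl fun w _ => ?_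
  unfold Pool.Agent.H49.Ent.cond law
  by_cases h1 : X w = x
  · by_cases h2 : U w
    · rw [if_pos h1, if_pos (eq_true h2), if_pos ⟨h1, h2⟩]
    · rw [if_pos h1, if_neg (fun h => h2 (of_eq_true h)), if_neg (fun h => h2 h.2), zero_div]
  · rw [if_neg h1, if_neg (fun h => h1 h.1), zero_div]

/-- Half of any event. -/
theorem cpr_half {Ω S V : Type} [Fintype Ω] {p : Ω → ℝ} (hp : IsLaw p) (T : Ω → S) (W : Ω → V)
    (U : Ω → Prop) (hU : 0 < law p U True) : ∃ U' : Ω → Prop, (∀ ω, U' ω → U ω) ∧
      law p U True / 2 ≤ law p U' True ∧ ∀ ω, 0 < cond p U' True ω →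
        cpr (cond p U' True) T W ω ≤ 2 / law p U True * cpr p T W ω := by
  classical
  have h0 := hp.nonneg
  obtain ⟨P, hP⟩ : ∃ P, P = law p U True := ⟨_, rfl⟩
  rw [← hP] at hU ⊢
  -- the good labels
  obtain ⟨g, hg⟩ : ∃ g : V → Prop, g = fun x =>
      P / 2 * law p W x ≤ ∑ w, if W w = x ∧ U w then p w else 0 := ⟨_, rfl⟩
  obtain ⟨U', hU'⟩ : ∃ U' : Ω → Prop, U' = fun ω => U ω ∧ g (W ω) := ⟨_, rfl⟩
  have lawU : ∀ E : Ω → Prop, law p E True = ∑ w, if E w then p w else 0 := by
    intro E
    unfold law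
    refine Finset.sum_congr rfl fun w _ => ?_
    by_cases h : E w
    · rw [if_pos (eq_true h), if_pos h]
    · rw [if_neg (fun h2 => h (of_eq_true h2)), if_neg h]
  have hhalf : P / 2 ≤ law p U' True := by
    -- the bad part
    have h1 : ∑ w, (if U w ∧ ¬ g (W w) then p w else 0) ≤ P / 2 := by
      have h2 : ∑ w, (if U w ∧ ¬ g (W w) then p w else 0) =
          ∑ x ∈ univ.image W, ∑ w, if W w = x ∧ (U w ∧ ¬ g x) then p w else 0 := by
        rw [Finset.sum_comm]
        refine Finset.sum_congr rfl fun w _ => ?_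
        rw [Finset.sum_eq_single_of_mem (W w) (Finset.mem_image_of_mem _ (Finset.mem_univ _))]
        · by_cases h : U w ∧ ¬ g (W w)
          · rw [if_pos h, if_pos ⟨rfl, h⟩]
          · rw [if_neg h, if_neg (fun h2 => h h2.2)]
        · intro x _ hx
          rw [if_neg (fun h => hx h.1.symm)]
      have h3 : ∀ x ∈ univ.image W, (∑ w, if W w = x ∧ (U w ∧ ¬ g x) then p w else 0) ≤
          P / 2 * law p W x := by
        intro x _
        by_cases hx : g x
        · rw [Finset.sum_eq_zero]
          · exact mul_nonneg (by linarith) (law_nonneg h0 W x)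
          · intro w _
            rw [if_neg (fun h => h.2.2 hx)]
        · have h4 : (∑ w, if W w = x ∧ (U w ∧ ¬ g x) then p w else 0) =
              ∑ w, if W w = x ∧ U w then p w else 0 := by
            refine Finset.sum_congr rfl fun w _ => ?_
            by_cases h5 : W w = x ∧ U w
            · rw [if_pos h5, if_pos ⟨h5.1, h5.2, hx⟩]
            · rw [if_neg h5, if_neg (fun h6 => h5 ⟨h6.1, h6.2.1⟩)]
          rw [h4]
          rw [hg] at hx
          exact (not_le.1 hx).le
      rw [h2]
      refine (Finset.sum_le_sum h3).trans (le_of_eq ?_)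
      rw [← Finset.mul_sum]
      have h5 := sum_law p W
      rw [hp.sum_one] at h5
      have h6 : ∑ x ∈ univ.image W, law p W x = 1 := h5
      rw [h6, mul_one]
    have h2 : P = law p U' True + ∑ w, (if U w ∧ ¬ g (W w) then p w else 0) := by
      rw [hP, lawU U, lawU U', ← Finset.sum_add_distrib]
      refine Finset.sum_congr rfl fun w _ => ?_
      rw [hU']
      by_cases a1 : U w
      · by_cases a2 : g (W w)
        · rw [if_pos a1, if_pos ⟨a1, a2⟩, if_neg (fun h => h.2 a2), add_zero]
        · rw [if_pos a1, if_neg (fun h => a2 h.2), if_pos ⟨a1, a2⟩, zero_add]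
      · rw [if_neg a1, if_neg (fun h => a1 h.1), if_neg (fun h => a1 h.1), add_zero]
    linarith
  have hpos : 0 < law p U' True := by linarith
  refine ⟨U', fun ω h => by rw [hU'] at h; exact h.1, hhalf, fun ω hω => ?_⟩
  obtain ⟨hω1, hω2⟩ := (cond_pos_iff h0 U' True ω).1 hω
  have hω3 : U' ω := of_eq_true hω2
  have hgω : g (W ω) := by rw [hU'] at hω3; exact hω3.2
  have hW : 0 < law p W (W ω) := law_pos h0 W hω1
  -- the label
  have e1 : law (cond p U' True) W (W ω) =
      (∑ w, if W w = W ω ∧ U w then p w else 0) / law p U' True := by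
    rw [law_cond_true]
    congr 1
    refine Finset.sum_congr rfl fun w _ => ?_
    rw [hU']
    by_cases a1 : W w = W ω
    · by_cases a2 : U w
      · rw [if_pos ⟨a1, a2, by rw [a1]; exact hgω⟩, if_pos ⟨a1, a2⟩]
      · rw [if_neg (fun h => a2 h.2.1), if_neg (fun h => a2 h.2)]
    · rw [if_neg (fun h => a1 h.1), if_neg (fun h => a1 h.1)]
  have e2 : P / 2 * law p W (W ω) / law p U' True ≤ law (cond p U' True) W (W ω) := by
    rw [e1]
    rw [hg] at hgω
    exact div_le_div_of_nonneg_right hgω hpos.le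
  have e3 : law (cond p U' True) (fun w => (T w, W w)) (T ω, W ω) ≤
      law p (fun w => (T w, W w)) (T ω, W ω) / law p U' True := by
    rw [law_cond_true]
    refine div_le_div_of_nonneg_right ?_ hpos.le
    unfold law
    refine Finset.sum_le_sum fun w _ => ?_
    by_cases a1 : (T w, W w) = (T ω, W ω)
    · rw [if_pos a1]
      split_ifs
      · exact le_rfl
      · exact h0 w
    · rw [if_neg a1, if_neg (fun h => a1 h.1)]
  unfold cpr
  have e4 : 0 < P / 2 * law p W (W ω) / law p U' True := by positivity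
  have e5 : 0 ≤ law p (fun w => (T w, W w)) (T ω, W ω) / law p U' True :=
    div_nonneg (law_nonneg h0 _ _) hpos.le
  calc law (cond p U' True) (fun w => (T w, W w)) (T ω, W ω) / law (cond p U' True) W (W ω) ≤
      (law p (fun w => (T w, W w)) (T ω, W ω) / law p U' True) /
        (P / 2 * law p W (W ω) / law p U' True) := div_le_div₀ e5 e3 e4 e2
    _ = 2 / P * (law p (fun w => (T w, W w)) (T ω, W ω) / law p W (W ω)) := by
      field_simp

/-- **(DSU)** -/
theorem tg_dsu : TGDSStmt := by
  intro m J F s K η r n e hF U hU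
  obtain ⟨μ, hK, hs, hL, hD⟩ := hF
  have hp := F.isLaw
  obtain ⟨U', h1, h2, h3⟩ := cpr_half hp F.T (fun w => (F.l w, F.Z w)) U hU
  have hpos : 0 < law F.p U' True := by linarith
  have hcl : IsLaw (cond F.p U' True) :=
    ⟨cond_nonneg hp.nonneg U' True, sum_cond F.p U' hpos.ne'⟩
  refine ⟨U', h1, h2, hcl, μ, hK.res U' True hcl, fun h => Det.res' (hs h) U' True hcl,
    hL.res U' True hcl, fun ω hω => ?_⟩
  have h4 := h3 ω hω
  have h5 := hD ω (cond_pos' hp.nonneg U' hω)
  have h6 : cpr (cond F.p U' True) F.T (fun w => (F.l w, F.Z w)) ω ≤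
      Real.exp (e + Real.log (2 / law F.p U True)) * μ ω (F.T ω) := by
    rw [Real.exp_add, Real.exp_log (by positivity)]
    calc cpr (cond F.p U' True) F.T (fun w => (F.l w, F.Z w)) ω ≤
        2 / law F.p U True * cpr F.p F.T (fun w => (F.l w, F.Z w)) ω := h4
      _ ≤ 2 / law F.p U True * (Real.exp e * μ ω (F.T ω)) :=
        mul_le_mul_of_nonneg_left h5 (by positivity)
      _ = _ := by ring
  exact h6

end Pool.KA
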