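import Pool.Agent.H85.TG.Ker
import Pool.Agent.H52.K2.RG

/-!
# Times with live windows: events in regular families
-/

set_option autoImplicit false

namespace Pool.KA

open Finset Real
open Pool.Agent.H49.Ent Pool.Agent.H32.Dense Pool.STK

variable {m J : ℕ}

theorem cond_pos' {Ω K : Type} [Fintype Ω] {p : Ω → ℝ} (hp : ∀ ω, 0 ≤ p ω) (A : Ω → K) {k : K}
    {ω : Ω} (h : 0 < cond p A k ω) : 0 < p ω := ((cond_pos_iff hp A k ω).1 h).1

theorem Fam.Ker.res {F : Fam m J} {μ : F.Ω → ℕ → ℝ} (hK : F.Ker μ) {κ : Type} (A : F.Ω → κ) (a : κ)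
    (h : IsLaw (cond F.p A a)) : (F.res A a h).Ker μ where
  nonneg := hK.nonneg
  sum := hK.sum
  pos := fun ω hω => hK.pos ω (cond_pos' F.isLaw.nonneg A hω)
  det := fun ω ω' hω hω' he => hK.det ω ω' (cond_pos' F.isLaw.nonneg A hω)
    (cond_pos' F.isLaw.nonneg A hω') he

theorem Fam.Live.res {F : Fam m J} {μ : F.Ω → ℕ → ℝ} {K : ℕ} {η r n : ℝ} (hL : F.Live μ K η r n)
    {κ : Type} (A : F.Ω → κ) (a : κ) (h : IsLaw (cond F.p A a)) :
    (F.res A a h).Live μ K η r n :=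
  fun ω hω => hL ω (cond_pos' F.isLaw.nonneg A hω)

theorem Det.res' {F : Fam m J} {μ : F.Ω → ℕ → ℝ} (hD : Det F.p F.Z μ)
    {κ : Type} (A : F.Ω → κ) (a : κ) (h : IsLaw (cond F.p A a)) :
    Det (F.res A a h).p (F.res A a h).Z μ :=
  fun ω ω' hω hω' he => hD ω ω' (cond_pos' F.isLaw.nonneg A hω)
    (cond_pos' F.isLaw.nonneg A hω') he

theorem tg_res : TGEStmt := by
  intro m J F s K η r n e e₀ c hc hTr hRb hT A hA
  obtain ⟨μ, hK, hs, hL, hkl, M, hM⟩ := hT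
  have hp : IsLaw F.p := F.isLaw
  have hpos : 0 < law F.p A True := lt_of_lt_of_le (Real.exp_pos _) hA
  have hcl : IsLaw (cond F.p A True) := cond_isLaw hp A hpos
  obtain ⟨ω₀, hω₀⟩ := rg_pos hp
  have he : 0 ≤ e := (abs_nonneg _).trans (hM ω₀ hω₀)
  obtain ⟨z, hz⟩ := hTr
  have hz' : ∀ ω, cond F.p A True ω ≠ 0 → F.Z ω = z := fun ω hω => hz ω (cond_ne A hω)
  obtain ⟨-, -, -, ⟨h4, r4⟩, ⟨h5, r5⟩⟩ := hRb
  have e1 : CH F.p F.T (fun ω => (F.l ω, F.Z ω)) =
      H F.p (fun ω => (F.T ω, F.l ω)) - H F.p F.l := tr_CH2 hp F.T F.l F.Z z hz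
  have e2 : CH (cond F.p A True) F.T (fun ω => (F.l ω, F.Z ω)) =
      H (cond F.p A True) (fun ω => (F.T ω, F.l ω)) - H (cond F.p A True) F.l :=
    tr_CH2 hcl F.T F.l F.Z z hz'
  have e3 : H F.p (fun ω => (F.T ω, F.l ω)) = H F.p (fun ω => (F.l ω, F.T ω)) :=
    H_congr hp.nonneg (fun _ _ _ _ h => by
      show (F.T _, F.l _) = (F.T _, F.l _)
      rw [(Prod.mk.inj h).1, (Prod.mk.inj h).2])
      (fun _ _ _ _ h => by
      show (F.l _, F.T _) = (F.l _, F.T _)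
      rw [(Prod.mk.inj h).1, (Prod.mk.inj h).2])
  have e4 : H (cond F.p A True) (fun ω => (F.T ω, F.l ω)) =
      H (cond F.p A True) (fun ω => (F.l ω, F.T ω)) :=
    H_congr hcl.nonneg (fun _ _ _ _ h => by
      show (F.T _, F.l _) = (F.T _, F.l _)
      rw [(Prod.mk.inj h).1, (Prod.mk.inj h).2])
      (fun _ _ _ _ h => by
      show (F.l _, F.T _) = (F.l _, F.T _)
      rw [(Prod.mk.inj h).1, (Prod.mk.inj h).2])
  have g1 := rg_le hp r4
  have g2 := rg_cond_ge hp r4 A hA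
  have g3 : h5 - e₀ ≤ H F.p F.l := rg_ge hp r5.2
  have g4 := rg_cond_le hp r5 A hpos
  have g5 : M - e ≤ Ex F.p (fun ω => -Real.log (μ ω (F.T ω))) := by
    rw [← Ex_const hp.sum_one (M - e)]
    exact Ex_mono hp.nonneg fun ω hω => by
      have := (abs_le.1 (hM ω hω)).1
      linarith
  have g6 : Ex (cond F.p A True) (fun ω => -Real.log (μ ω (F.T ω))) ≤ M + e := by
    rw [← Ex_const hcl.sum_one (M + e)]
    exact Ex_mono hcl.nonneg fun ω hω => by
      have := (abs_le.1 (hM ω (cond_pos' hp.nonneg A hω))).2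
      linarith
  refine ⟨hcl, μ, hK.res A True hcl, fun h => Det.res' (hs h) A True hcl, hL.res A True hcl,
    ?_, M, fun ω hω => ?_⟩
  · have goal : Ex (cond F.p A True) (fun ω => -Real.log (μ ω (F.T ω))) -
        CH (cond F.p A True) F.T (fun ω => (F.l ω, F.Z ω)) ≤ 3 * e + 4 * e₀ + c := by
      unfold Fam.kl at hkl
      rw [e2, e4]
      rw [e1, e3] at hkl
      linarith
    exact goal
  · have h1 := hM ω (cond_pos' hp.nonneg A hω)
    have h2 : e ≤ 3 * e + 4 * e₀ + c := by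
      have h3 : h4 - e₀ ≤ H F.p (fun ω => (F.l ω, F.T ω)) := rg_ge hp r4.2
      have h5 := rg_le hp r4
      have h6 : 0 ≤ e₀ := by linarith
      linarith
    exact h1.trans h2

end Pool.KA
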