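import Pool.Agent.H85.TG.Stmts2
import Pool.Agent.H85.TG.RES

/-!
# Times with live windows: all events (DRS)
-/

set_option autoImplicit false

namespace Pool.KA

open Finset Real
open Pool.Agent.H49.Ent Pool.Agent.H32.Dense Pool.STK

variable {m J : ℕ}

/-- The relative entropy of a conditional law with respect to the old one. -/
theorem cpr_res {Ω S U K : Type} [Fintype Ω] {p : Ω → ℝ} (hp : IsLaw p) (T : Ω → S) (W : Ω → U)
    (A : Ω → K) {a : K} (hA : 0 < law p A a) :
    Ex (cond p A a) (fun ω => -Real.log (cpr p T W ω)) - CH (cond p A a) T W ≤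
      -Real.log (law p A a) := by
  classical
  have h0 := hp.nonneg
  obtain ⟨q, hq⟩ : ∃ q, q = cond p A a := ⟨_, rfl⟩
  rw [← hq]
  have hql : IsLaw q := by
    rw [hq]
    exact ⟨cond_nonneg h0 A a, sum_cond p A hA.ne'⟩
  have hqp : ∀ ω, 0 < q ω → 0 < p ω := fun ω hω => by
    rw [hq] at hω
    exact cond_pos' h0 A hω
  have hle : ∀ ω, q ω ≤ p ω / law p A a := by
    intro ω
    rw [hq]
    unfold Pool.Agent.H49.Ent.cond
    split_ifs
    · exact le_rfl
    · exact div_nonneg (h0 ω) hA.le
  -- the joint law
  have h1 : Ex q (fun ω => -Real.log (law p (fun w => (T w, W w)) (T ω, W ω))) +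
      Real.log (law p A a) ≤ H q (fun w => (T w, W w)) := by
    have e1 : H q (fun w => (T w, W w)) =
        Ex q (fun ω => -Real.log (law q (fun w => (T w, W w)) (T ω, W ω))) := by
      unfold H Ex
      rw [← Finset.sum_neg_distrib]
      exact Finset.sum_congr rfl fun ω _ => by ring
    have e2 : Ex q (fun ω => -Real.log (law p (fun w => (T w, W w)) (T ω, W ω))) +
        Real.log (law p A a) =
        Ex q (fun ω => -Real.log (law p (fun w => (T w, W w)) (T ω, W ω)) +
          Real.log (law p A a)) := by
      have b4 := Ex_const hql.sum_one (Real.log (law p A a))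
      unfold Ex at b4 ⊢
      simp only [mul_add, Finset.sum_add_distrib] at b4 ⊢
      linarith
    rw [e1, e2]
    refine Ex_mono hql.nonneg fun ω hω => ?_
    have h2 : law q (fun w => (T w, W w)) (T ω, W ω) ≤
        law p (fun w => (T w, W w)) (T ω, W ω) / law p A a := by
      unfold law
      rw [Finset.sum_div]
      refine Finset.sum_le_sum fun w _ => ?_
      split_ifs
      · exact hle w
      · rw [zero_div]
    have h3 : 0 < law q (fun w => (T w, W w)) (T ω, W ω) :=
      law_pos hql.nonneg (fun w => (T w, W w)) hω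
    have h4 : 0 < law p (fun w => (T w, W w)) (T ω, W ω) :=
      law_pos h0 (fun w => (T w, W w)) (hqp ω hω)
    have h5 := Real.log_le_log h3 h2
    rw [Real.log_div h4.ne' hA.ne'] at h5
    linarith
  -- the label
  have h2 : H q W ≤ Ex q (fun ω => -Real.log (law p W (W ω))) := by
    have e1 : H q W = CH q W (fun _ : Ω => ()) := by
      unfold CH
      rw [H_const hql.sum_one, sub_zero]
      refine H_congr hql.nonneg ?_ ?_
      · intro ω ω' _ _ h
        exact (Prod.ext_iff.1 h).1
      · intro ω ω' _ _ h
        exact Prod.ext h rfl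
    rw [e1]
    refine CH_le_ker hql.nonneg hql.sum_one W (fun _ => ()) (fun _ u => law p W u) ?_ ?_ ?_ ?_
    · intro _ _ _ _ _
      rfl
    · intro ω hω
      exact law_pos h0 W (hqp ω hω)
    · intro _ x
      exact law_nonneg h0 W x
    · intro _ _ G
      calc ∑ x ∈ G, law p W x ≤ ∑ ω, p ω := by
            unfold law
            rw [Finset.sum_comm]
            refine Finset.sum_le_sum fun ω _ => ?_
            by_cases h : W ω ∈ G
            · rw [Finset.sum_eq_single_of_mem (W ω) h]
              · rw [if_pos rfl]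
              · intro u _ hu
                rw [if_neg (Ne.symm hu)]
            · rw [Finset.sum_eq_zero]
              · exact h0 ω
              · intro u hu
                rw [if_neg]
                intro e
                exact h (e ▸ hu)
        _ = 1 := hp.sum_one
  have h3 : Ex q (fun ω => -Real.log (cpr p T W ω)) =
      Ex q (fun ω => -Real.log (law p (fun w => (T w, W w)) (T ω, W ω))) -
        Ex q (fun ω => -Real.log (law p W (W ω))) := by
    have e : Ex q (fun ω => -Real.log (cpr p T W ω)) =
        Ex q (fun ω => -Real.log (law p (fun w => (T w, W w)) (T ω, W ω)) -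
          (-Real.log (law p W (W ω)))) := by
      refine Ex_congr_pos hql.nonneg fun ω hω => ?_
      unfold cpr
      have h4 : 0 < law p (fun w => (T w, W w)) (T ω, W ω) :=
        law_pos h0 (fun w => (T w, W w)) (hqp ω hω)
      rw [Real.log_div h4.ne' (law_pos h0 W (hqp ω hω)).ne']
      ring
    rw [e]
    unfold Ex
    rw [← Finset.sum_sub_distrib]
    exact Finset.sum_congr rfl fun ω _ => by ring
  rw [h3]
  unfold CH
  linarith

/-- **(DRS)** -/
theorem tg_drs : TGDRStmt := by
  intro m J F s K η r n e c hF κ A a hA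
  obtain ⟨μ, hK, hs, hL, hD⟩ := hF
  have hp := F.isLaw
  have hpos : 0 < law F.p A a := lt_of_lt_of_le (Real.exp_pos _) hA
  have hcl : IsLaw (cond F.p A a) := ⟨cond_nonneg hp.nonneg A a, sum_cond F.p A hpos.ne'⟩
  refine ⟨hcl, μ, hK.res A a hcl, fun h => Det.res' (hs h) A a hcl, hL.res A a hcl, ?_⟩
  have h1 := cpr_res hp F.T (fun w => (F.l w, F.Z w)) A hpos
  have h2 : Ex (cond F.p A a) (fun ω => -Real.log (μ ω (F.T ω))) ≤
      Ex (cond F.p A a) (fun ω => -Real.log (cpr F.p F.T (fun w => (F.l w, F.Z w)) ω)) + e := by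
    have e2 : Ex (cond F.p A a) (fun ω => -Real.log (cpr F.p F.T (fun w => (F.l w, F.Z w)) ω)) +
        e = Ex (cond F.p A a) (fun ω =>
          -Real.log (cpr F.p F.T (fun w => (F.l w, F.Z w)) ω) + e) := by
      have b4 := Ex_const hcl.sum_one e
      unfold Ex at b4 ⊢
      simp only [mul_add, Finset.sum_add_distrib] at b4 ⊢
      linarith
    rw [e2]
    refine Ex_mono hcl.nonneg fun ω hω => ?_
    have hω' := cond_pos' hp.nonneg A hω
    have h3 := hD ω hω'
    have h4 : 0 < cpr F.p F.T (fun w => (F.l w, F.Z w)) ω :=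
      div_pos (law_pos hp.nonneg (fun w => (F.T w, (F.l w, F.Z w))) hω')
        (law_pos hp.nonneg (fun w => (F.l w, F.Z w)) hω')
    have h5 := Real.log_le_log h4 h3
    rw [Real.log_mul (Real.exp_pos _).ne' (hK.pos ω hω').ne', Real.log_exp] at h5
    linarith
  have h3 : -Real.log (law F.p A a) ≤ c := by
    have := Real.log_le_log (Real.exp_pos _) hA
    rw [Real.log_exp] at this
    linarith
  have goal : Ex (cond F.p A a) (fun ω => -Real.log (μ ω (F.T ω))) -
      CH (cond F.p A a) F.T (fun ω => (F.l ω, F.Z ω)) ≤ e + c := by linarith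
  exact goal

end Pool.KA
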