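import Pool.Agent.H85.TG.Stmts

/-!
# Times with live windows: kernels
-/

set_option autoImplicit false

namespace Pool.KA

open Finset Real
open Pool.Agent.H49.Ent Pool.Agent.H32.Dense Pool.STK

theorem Ex_congr_pos {Ω : Type*} [Fintype Ω] {p : Ω → ℝ} (hp : ∀ ω, 0 ≤ p ω) {f g : Ω → ℝ}
    (h : ∀ ω, 0 < p ω → f ω = g ω) : Ex p f = Ex p g :=
  le_antisymm (Ex_mono hp fun ω hω => (h ω hω).le) (Ex_mono hp fun ω hω => (h ω hω).ge)

/-- Gibbs inequality for kernels on the sample space. -/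
theorem CH_le_ker {Ω S U : Type*} [Fintype Ω] {p : Ω → ℝ} (hp : ∀ ω, 0 ≤ p ω)
    (h1 : ∑ ω, p ω = 1) (X : Ω → S) (W : Ω → U) (k : Ω → S → ℝ) (hd : Det p W k)
    (hpos : ∀ ω, 0 < p ω → 0 < k ω (X ω)) (h0 : ∀ ω x, 0 ≤ k ω x)
    (hsum : ∀ ω, 0 < p ω → ∀ G : Finset S, ∑ x ∈ G, k ω x ≤ 1) :
    CH p X W ≤ Ex p (fun ω => -Real.log (k ω (X ω))) := by
  classical
  set q : U → S → ℝ := fun w x => if h : ∃ ω, 0 < p ω ∧ W ω = w then k h.choose x else 0 with hq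
  have hqk : ∀ ω, 0 < p ω → q (W ω) = k ω := by
    intro ω hω
    have h : ∃ ω', 0 < p ω' ∧ W ω' = W ω := ⟨ω, hω, rfl⟩
    have h2 : q (W ω) = k h.choose := by
      funext x
      simp only [hq]
      rw [dif_pos h]
    rw [h2]
    exact hd _ _ h.choose_spec.1 hω h.choose_spec.2
  have h := CH_le_cross hp h1 X W q
    (fun ω hω => by rw [hqk ω hω]; exact hpos ω hω)
    (fun w x => by
      simp only [hq]
      split_ifs
      · exact h0 _ _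
      · exact le_rfl)
    (fun ω hω G => by rw [hqk ω hω]; exact hsum ω hω G)
  exact h.trans (le_of_eq (Ex_congr_pos hp fun ω hω => by rw [hqk ω hω]))

theorem pm_eq (μ : ℕ → ℝ) (J v t : ℕ) : pm μ J v t = lowk μ (J - v) (t / 2 ^ (J - v)) := rfl

theorem sum_range_blocks (f : ℕ → ℝ) (a b : ℕ) :
    ∑ i ∈ range (a * b), f i = ∑ i ∈ range a, ∑ j ∈ range b, f (i * b + j) := by
  induction a with
  | zero => simp
  | succ a ih =>
    rw [Nat.succ_mul, Finset.sum_range_add, ih, Finset.sum_range_succ]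

theorem lowk_zero (μ : ℕ → ℝ) (s : ℕ) : lowk μ 0 s = μ s := by
  simp [lowk]

theorem lowk_lowk (μ : ℕ → ℝ) (a b s : ℕ) : lowk (lowk μ a) b s = lowk μ (a + b) s := by
  unfold lowk
  have e : 2 ^ (a + b) = 2 ^ b * 2 ^ a := by rw [pow_add, mul_comm]
  rw [e, sum_range_blocks]
  refine Finset.sum_congr rfl fun i _ => Finset.sum_congr rfl fun j _ => ?_
  congr 1
  ring

theorem lowk_nonneg {μ : ℕ → ℝ} (h : ∀ t, 0 ≤ μ t) (q s : ℕ) : 0 ≤ lowk μ q s :=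
  Finset.sum_nonneg fun _ _ => h _

theorem le_lowk {μ : ℕ → ℝ} (h : ∀ t, 0 ≤ μ t) (q t : ℕ) : μ t ≤ lowk μ q (t / 2 ^ q) := by
  unfold lowk
  have h1 : t / 2 ^ q * 2 ^ q + t % 2 ^ q = t := Nat.div_add_mod' _ _
  have h2 := Finset.single_le_sum (f := fun r => μ (t / 2 ^ q * 2 ^ q + r)) (fun r _ => h _)
    (Finset.mem_range.2 (Nat.mod_lt t (show 0 < 2 ^ q by positivity)))
  simp only [h1] at h2
  exact h2

theorem sum_lowk (μ : ℕ → ℝ) {J q : ℕ} (hq : q ≤ J) :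
    ∑ s ∈ range (2 ^ (J - q)), lowk μ q s = ∑ t ∈ range (2 ^ J), μ t := by
  have e : 2 ^ J = 2 ^ (J - q) * 2 ^ q := by rw [← pow_add, Nat.sub_add_cancel hq]
  rw [e, sum_range_blocks]
  rfl

theorem pm_nonneg {μ : ℕ → ℝ} (h : ∀ t, 0 ≤ μ t) (J v t : ℕ) : 0 ≤ pm μ J v t :=
  lowk_nonneg h _ _

theorem le_pm {μ : ℕ → ℝ} (h : ∀ t, 0 ≤ μ t) (J v t : ℕ) : μ t ≤ pm μ J v t := by
  rw [pm_eq]
  exact le_lowk h _ _

theorem pm_top (μ : ℕ → ℝ) {J v : ℕ} (hv : J ≤ v) (t : ℕ) : pm μ J v t = μ t := by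
  rw [pm_eq, Nat.sub_eq_zero_of_le hv]
  simp [lowk_zero]

theorem pm_anti {μ : ℕ → ℝ} (h : ∀ t, 0 ≤ μ t) (J t : ℕ) {v v' : ℕ} (hv : v ≤ v') :
    pm μ J v' t ≤ pm μ J v t := by
  rw [pm_eq, pm_eq]
  have e : J - v = (J - v') + ((J - v) - (J - v')) := by omega
  rw [e, ← lowk_lowk, pow_add, ← Nat.div_div_eq_div_mul]
  exact le_lowk (fun s => lowk_nonneg h _ s) _ _

/-- Windows of the image. -/
theorem pm_low (μ : ℕ → ℝ) (J q v t : ℕ) (hv : v ≤ J - q) (hq : q ≤ J) :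
    pm (lowk μ q) (J - q) v (t / 2 ^ q) = pm μ J v t := by
  rw [pm_eq, pm_eq, lowk_lowk, Nat.div_div_eq_div_mul, ← pow_add]
  have e : q + (J - q - v) = J - v := by omega
  rw [e]

theorem pm_congr (μ : ℕ → ℝ) (J v : ℕ) {t t' : ℕ} (h : t / 2 ^ (J - v) = t' / 2 ^ (J - v)) :
    pm μ J v t = pm μ J v t' := by
  rw [pm_eq, pm_eq, h]

theorem pm_split (μ : ℕ → ℝ) (J t : ℕ) {v v' : ℕ} (hv : v ≤ v') (hJ : v' ≤ J) :
    pm μ J v t =
      ∑ i ∈ range (2 ^ (v' - v)), lowk μ (J - v') (t / 2 ^ (J - v) * 2 ^ (v' - v) + i) := by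
  have e : J - v' + (v' - v) = J - v := by omega
  have h : lowk (lowk μ (J - v')) (v' - v) (t / 2 ^ (J - v)) = lowk μ (J - v) (t / 2 ^ (J - v)) := by
    rw [lowk_lowk, e]
  exact h.symm

theorem pn_nonneg {μ : ℕ → ℝ} (h : ∀ t, 0 ≤ μ t) (J v K t : ℕ) : 0 ≤ pn μ J v K t := by
  unfold pn
  refine Finset.sum_nonneg fun j _ => ?_
  split_ifs
  · exact lowk_nonneg h _ _
  · exact le_rfl

theorem pn_le_pm {μ : ℕ → ℝ} (h : ∀ t, 0 ≤ μ t) (J v K t : ℕ) (hv : v + K ≤ J) :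
    pn μ J v K t ≤ pm μ J v t := by
  rw [pm_split μ J t (Nat.le_add_right v K) hv, Nat.add_sub_cancel_left]
  unfold pn
  refine Finset.sum_le_sum fun j _ => ?_
  split_ifs
  · exact le_rfl
  · exact lowk_nonneg h _ _

/-- Neighbours in windows of the image. -/
theorem pn_low (μ : ℕ → ℝ) (J q v K t : ℕ) (hv : v + K ≤ J - q) (hq : q ≤ J) :
    pn (lowk μ q) (J - q) v K (t / 2 ^ q) = pn μ J v K t := by
  unfold pn
  have e1 : t / 2 ^ q / 2 ^ (J - q - v) = t / 2 ^ (J - v) := by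
    rw [Nat.div_div_eq_div_mul, ← pow_add]
    congr 2
    omega
  have e2 : t / 2 ^ q / 2 ^ (J - q - (v + K)) = t / 2 ^ (J - (v + K)) := by
    rw [Nat.div_div_eq_div_mul, ← pow_add]
    congr 2
    omega
  have e3 : q + (J - q - (v + K)) = J - (v + K) := by omega
  rw [e1, e2]
  refine Finset.sum_congr rfl fun j _ => ?_
  rw [lowk_lowk, e3]

/-- Bad windows of the image. -/
theorem nbad_low (μ : ℕ → ℝ) (J q K t a b : ℕ) (η : ℝ) (hq : q ≤ J) :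
    nbad (lowk μ q) (J - q) K η (t / 2 ^ q) a b ≤ nbad μ J K η t a b := by
  classical
  unfold nbad
  refine Finset.card_le_card fun v hv => ?_
  obtain ⟨h1, h2, h3⟩ := Finset.mem_filter.1 hv
  refine Finset.mem_filter.2 ⟨h1, by omega, ?_⟩
  rw [pn_low μ J q v K t h2 hq, pm_low μ J q v t (by omega) hq] at h3
  exact h3

variable {m J : ℕ}

theorem Fam.T1_eq (F : Fam m J) (v : ℕ) (ω : F.Ω) : F.T1 v ω = F.T ω / 2 ^ (J - v) := rfl

theorem Fam.T1_T1 (F : Fam m J) {v v' : ℕ} (h : v ≤ v') (hJ : v' ≤ J) (ω : F.Ω) :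
    F.T1 v' ω / 2 ^ (v' - v) = F.T1 v ω := by
  unfold Fam.T1
  rw [Nat.div_div_eq_div_mul, ← pow_add]
  congr 2
  omega

theorem Fam.Ker.pm_pos {F : Fam m J} {μ : F.Ω → ℕ → ℝ} (h : F.Ker μ) {ω : F.Ω}
    (hω : 0 < F.p ω) (v : ℕ) : 0 < pm (μ ω) J v (F.T ω) :=
  (h.pos ω hω).trans_le (le_pm (h.nonneg ω) _ _ _)

/-- Relative entropy of the first digits. -/
noncomputable def Fam.klv (F : Fam m J) (μ : F.Ω → ℕ → ℝ) (v : ℕ) : ℝ :=
  Ex F.p (fun ω => -Real.log (pm (μ ω) J v (F.T ω))) -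
    CH F.p (F.T1 v) (fun ω => (F.l ω, F.Z ω))

theorem Fam.klv_top (F : Fam m J) (μ : F.Ω → ℕ → ℝ) : F.klv μ J = F.kl μ := by
  unfold Fam.klv Fam.kl
  congr 1
  · exact Ex_congr_pos F.isLaw.nonneg fun ω _ => by rw [pm_top _ le_rfl]
  · have : F.T1 J = F.T := by
      funext ω
      simp [Fam.T1]
    rw [this]

/-- The conditional kernel of the first `v'` digits, given the first `v` digits. -/
theorem Fam.Ker.gibbs {F : Fam m J} {μ : F.Ω → ℕ → ℝ} (h : F.Ker μ) {v v' : ℕ} (hv : v ≤ v')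
    (hJ : v' ≤ J) :
    CH F.p (F.T1 v') (fun ω => (F.T1 v ω, (F.l ω, F.Z ω))) ≤
      Ex F.p (fun ω => -Real.log (pm (μ ω) J v' (F.T ω) / pm (μ ω) J v (F.T ω))) := by
  classical
  have hp := F.isLaw.nonneg
  have h1 := F.isLaw.sum_one
  set k : F.Ω → ℕ → ℝ := fun ω s => if s / 2 ^ (v' - v) = F.T1 v ω then
    lowk (μ ω) (J - v') s / pm (μ ω) J v (F.T ω) else 0 with hk
  have hkT : ∀ ω, k ω (F.T1 v' ω) = pm (μ ω) J v' (F.T ω) / pm (μ ω) J v (F.T ω) := by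
    intro ω
    simp only [hk]
    rw [if_pos (F.T1_T1 hv hJ ω)]
    rfl
  have hpme : ∀ ω, pm (μ ω) J v (F.T ω) =
      ∑ i ∈ range (2 ^ (v' - v)), lowk (μ ω) (J - v') (F.T1 v ω * 2 ^ (v' - v) + i) :=
    fun ω => pm_split _ _ _ hv hJ
  have hg := CH_le_ker hp h1 (F.T1 v') (fun ω => (F.T1 v ω, (F.l ω, F.Z ω))) k ?_ ?_ ?_ ?_
  · exact hg.trans (le_of_eq (Ex_congr_pos hp fun ω _ => by rw [hkT]))
  · intro ω ω' hω hω' he
    have e1 : F.T1 v ω = F.T1 v ω' := (Prod.ext_iff.mp he).1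
    have e2 : μ ω = μ ω' := h.det ω ω' hω hω' (Prod.ext_iff.mp he).2
    have e3 : pm (μ ω) J v (F.T ω) = pm (μ ω') J v (F.T ω') := by
      rw [e2]
      exact pm_congr _ _ _ e1
    funext s
    simp only [hk]
    rw [e3, e1, e2]
  · intro ω hω
    rw [hkT]
    exact div_pos (h.pm_pos hω v') (h.pm_pos hω v)
  · intro ω s
    simp only [hk]
    split_ifs
    · exact div_nonneg (lowk_nonneg (h.nonneg ω) _ _) (pm_nonneg (h.nonneg ω) _ _ _)
    · exact le_rfl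
  · intro ω hω G
    simp only [hk]
    rw [← Finset.sum_filter, ← Finset.sum_div, div_le_one (h.pm_pos hω v), hpme ω]
    have hsub : G.filter (fun s => s / 2 ^ (v' - v) = F.T1 v ω) ⊆
        (range (2 ^ (v' - v))).image (fun i => F.T1 v ω * 2 ^ (v' - v) + i) := by
      intro s hs
      have h2 := (Finset.mem_filter.1 hs).2
      refine Finset.mem_image.2 ⟨s % 2 ^ (v' - v), Finset.mem_range.2
        (Nat.mod_lt _ (by positivity)), ?_⟩
      rw [← h2]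
      exact Nat.div_add_mod' _ _
    refine (Finset.sum_le_sum_of_subset_of_nonneg hsub
      fun s _ _ => lowk_nonneg (h.nonneg ω) _ _).trans (le_of_eq ?_)
    rw [Finset.sum_image]
    intro i _ j _ hij
    simpa using hij

theorem Fam.Ker.klv_le {F : Fam m J} {μ : F.Ω → ℕ → ℝ} (h : F.Ker μ) {v v' : ℕ} (hv : v ≤ v')
    (hJ : v' ≤ J) :
    CH F.p (F.T1 v') (fun ω => (F.T1 v ω, (F.l ω, F.Z ω))) =
      Ex F.p (fun ω => -Real.log (pm (μ ω) J v' (F.T ω) / pm (μ ω) J v (F.T ω))) -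
      (F.klv μ v' - F.klv μ v) := by
  have hp := F.isLaw.nonneg
  have e1 : CH F.p (F.T1 v') (fun ω => (F.l ω, F.Z ω)) = CH F.p (F.T1 v) (fun ω => (F.l ω, F.Z ω)) +
      CH F.p (F.T1 v') (fun ω => (F.T1 v ω, (F.l ω, F.Z ω))) := by
    have h1 := CH_chain hp (F.T1 v') (F.T1 v) (fun ω => (F.l ω, F.Z ω))
    have h2 : CH F.p (fun ω => (F.T1 v' ω, F.T1 v ω)) (fun ω => (F.l ω, F.Z ω)) =
        CH F.p (F.T1 v') (fun ω => (F.l ω, F.Z ω)) := by
      refine CH_congr hp ?_ ?_ ?_ ?_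
      · intro ω ω' _ _ he
        exact (Prod.ext_iff.mp (Prod.ext_iff.mp he).1).1
      · intro ω ω' _ _ he
        have e := (Prod.ext_iff.mp he).1
        simp only at e
        show (F.T1 v' ω, F.T1 v ω) = (F.T1 v' ω', F.T1 v ω')
        rw [← F.T1_T1 hv hJ ω, ← F.T1_T1 hv hJ ω', e]
      · intro ω ω' _ _ he
        exact he
      · intro ω ω' _ _ he
        exact he
    linarith
  have e2 : Ex F.p (fun ω => -Real.log (pm (μ ω) J v' (F.T ω) / pm (μ ω) J v (F.T ω))) =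
      Ex F.p (fun ω => -Real.log (pm (μ ω) J v' (F.T ω))) -
      Ex F.p (fun ω => -Real.log (pm (μ ω) J v (F.T ω))) := by
    rw [← Ex_sub]
    refine Ex_congr_pos hp fun ω h0 => ?_
    rw [Real.log_div (h.pm_pos h0 v').ne' (h.pm_pos h0 v).ne']
    ring
  rw [e2]
  unfold Fam.klv
  linarith

theorem Fam.Ker.klv_mono {F : Fam m J} {μ : F.Ω → ℕ → ℝ} (h : F.Ker μ) {v v' : ℕ} (hv : v ≤ v')
    (hJ : v' ≤ J) : F.klv μ v ≤ F.klv μ v' := by
  have h1 := h.gibbs hv hJ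
  have h2 := h.klv_le hv hJ
  linarith

end Pool.KA
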