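import Pool.Agent.H85.TG.Ker
import Pool.Agent.H32.Dense.Split

/-!
# Times with live windows: from the mean to every path (LIV)
-/

set_option autoImplicit false

namespace Pool.KA.TGV

open Finset Real
open Pool.Agent.H49.Ent Pool.Agent.H32.Dense Pool.STK Pool.KA

variable {m J : ℕ}

/-- The relative entropy is nonnegative. -/
theorem kl_nonneg {F : Fam m J} {μ : F.Ω → ℕ → ℝ} (h : F.Ker μ) : 0 ≤ F.kl μ := by
  classical
  have hp := F.isLaw
  have hg := CH_le_ker hp.nonneg hp.sum_one F.T (fun ω => (F.l ω, F.Z ω))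
    (fun ω x => if x < 2 ^ J then μ ω x else 0) ?_ ?_ ?_ ?_
  · have e : Ex F.p (fun ω => -Real.log (if F.T ω < 2 ^ J then μ ω (F.T ω) else 0)) =
        Ex F.p (fun ω => -Real.log (μ ω (F.T ω))) := by
      congr 1
      funext ω
      rw [if_pos (F.tim ω)]
    rw [e] at hg
    unfold Fam.kl
    linarith
  · intro ω ω' hω hω' he
    have e2 : μ ω = μ ω' := h.det ω ω' hω hω' he
    simp only [e2]
  · intro ω hω
    show 0 < if F.T ω < 2 ^ J then μ ω (F.T ω) else 0
    rw [if_pos (F.tim ω)]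
    exact h.pos ω hω
  · intro ω x
    split_ifs
    · exact h.nonneg ω x
    · exact le_rfl
  · intro ω _ G
    rw [← Finset.sum_filter]
    refine le_trans (Finset.sum_le_sum_of_subset_of_nonneg (t := range (2 ^ J)) ?_ ?_) (h.sum ω)
    · intro x hx
      exact Finset.mem_range.2 (Finset.mem_filter.1 hx).2
    · intro x _ _
      exact h.nonneg ω x

/-- The kernel on an event. -/
theorem ker_res {F : Fam m J} {μ : F.Ω → ℕ → ℝ} (h : F.Ker μ) {κ : Type} (A : F.Ω → κ) (a : κ)
    (hl : IsLaw (Pool.Agent.H49.Ent.cond F.p A a)) : (F.res A a hl).Ker μ where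
  nonneg := h.nonneg
  sum := h.sum
  pos := fun ω hω => h.pos ω ((cond_pos_iff F.isLaw.nonneg A a ω).1 hω).1
  det := fun ω ω' hω hω' he => h.det ω ω' ((cond_pos_iff F.isLaw.nonneg A a ω).1 hω).1
    ((cond_pos_iff F.isLaw.nonneg A a ω').1 hω').1 he

theorem law_cond {Ω κ : Type} [Fintype Ω] {p : Ω → ℝ} (hp : IsLaw p) (A : Ω → κ) {a : κ}
    (ha : 0 < law p A a) : IsLaw (Pool.Agent.H49.Ent.cond p A a) :=
  ⟨cond_nonneg hp.nonneg A a, sum_cond p A ha.ne'⟩

/-- The relative entropy on the pieces of a partition. -/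
theorem kl_res {F : Fam m J} {μ : F.Ω → ℕ → ℝ} (h : F.Ker μ) {κ : Type} [Fintype κ] (A : F.Ω → κ)
    {a : κ} (ha : 0 < law F.p A a) (hl : IsLaw (Pool.Agent.H49.Ent.cond F.p A a)) :
    (F.res A a hl).kl μ ≤ (F.kl μ + Real.log (Fintype.card κ)) / law F.p A a := by
  classical
  have hp := F.isLaw
  have e1 := Ex_split hp.nonneg (fun ω => -Real.log (μ ω (F.T ω))) A
  have e2 := CH_split hp.nonneg F.T (fun ω => (F.l ω, F.Z ω)) A
  have e3 : CH F.p F.T (fun ω => (A ω, (F.l ω, F.Z ω))) =
      CH F.p F.T (fun ω => ((F.l ω, F.Z ω), A ω)) := by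
    refine CH_congr hp.nonneg ?_ ?_ ?_ ?_ <;>
    · intro ω ω' _ _ he
      simp only [Prod.mk.injEq] at he ⊢
      tauto
  have e4 := CH_le_add hp.nonneg F.T A (fun ω => (F.l ω, F.Z ω))
  have e5 : CH F.p A (fun ω => (F.l ω, F.Z ω)) ≤ Real.log (Fintype.card κ) := by
    have := CH_le_card hp.nonneg hp.sum_one A (fun ω => (F.l ω, F.Z ω)) (fun _ => univ)
      (fun ω _ => Finset.mem_univ _)
    rwa [Ex_const hp.sum_one, Finset.card_univ] at this
  -- the sum over the pieces
  have key : law F.p A a * (F.res A a hl).kl μ ≤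
      ∑ j ∈ univ.image A, (law F.p A j * Ex (Pool.Agent.H49.Ent.cond F.p A j)
        (fun ω => -Real.log (μ ω (F.T ω))) - law F.p A j *
        CH (Pool.Agent.H49.Ent.cond F.p A j) F.T (fun ω => (F.l ω, F.Z ω))) := by
    have hmem : a ∈ univ.image A := by
      by_contra hcon
      have : law F.p A a = 0 := by
        unfold law
        refine Finset.sum_eq_zero fun ω _ => ?_
        rw [if_neg]
        intro hω
        exact hcon (hω ▸ Finset.mem_image_of_mem _ (Finset.mem_univ ω))
      linarith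
    have h0 := Finset.single_le_sum (f := fun j => law F.p A j *
      Ex (Pool.Agent.H49.Ent.cond F.p A j) (fun ω => -Real.log (μ ω (F.T ω))) - law F.p A j *
        CH (Pool.Agent.H49.Ent.cond F.p A j) F.T (fun ω => (F.l ω, F.Z ω))) ?_ hmem
    · refine le_trans (le_of_eq ?_) h0
      show _ = law F.p A a * Ex (Pool.Agent.H49.Ent.cond F.p A a)
        (fun ω => -Real.log (μ ω (F.T ω))) - law F.p A a *
        CH (Pool.Agent.H49.Ent.cond F.p A a) F.T (fun ω => (F.l ω, F.Z ω))
      rw [← mul_sub]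
      rfl
    · intro j _
      rcases (law_nonneg hp.nonneg A j).eq_or_lt with h1 | h1
      · simp only [← h1]
        simp
      · have hlj := law_cond hp A h1
        have h2 := kl_nonneg (ker_res h A j hlj)
        have h3 : (F.res A j hlj).kl μ = Ex (Pool.Agent.H49.Ent.cond F.p A j)
          (fun ω => -Real.log (μ ω (F.T ω))) -
          CH (Pool.Agent.H49.Ent.cond F.p A j) F.T (fun ω => (F.l ω, F.Z ω)) := rfl
        rw [h3] at h2
        rw [← mul_sub]
        exact mul_nonneg h1.le h2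
  rw [Finset.sum_sub_distrib, ← e1, ← e2] at key
  rw [le_div_iff₀ ha]
  have e6 : F.kl μ = Ex F.p (fun ω => -Real.log (μ ω (F.T ω))) -
    CH F.p F.T (fun ω => (F.l ω, F.Z ω)) := rfl
  rw [e6]
  linarith

theorem tgv_thm : TGVStmt := by
  classical
  intro m J F s μ K η n e δ hn hδ hδ2 hμ hs hkl hbad
  have hp := F.isLaw
  obtain ⟨A, hA⟩ : ∃ A : F.Ω → Prop, A = fun ω => (nbad (μ ω) J K η (F.T ω) 0 J : ℝ) ≤ n :=
    ⟨_, rfl⟩
  have hmass : 1 - δ ≤ law F.p A True := by
    have h1 : law F.p A True = ∑ ω, if A ω then F.p ω else 0 := by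
      unfold law
      refine Finset.sum_congr rfl fun ω _ => ?_
      by_cases h : A ω
      · rw [if_pos h, if_pos (by simpa using h)]
      · rw [if_neg h, if_neg (by simpa using h)]
    have h2 : Ex F.p (fun ω => (nbad (μ ω) J K η (F.T ω) 0 J : ℝ)) ≥
        ∑ ω, (if A ω then 0 else F.p ω * n) := by
      unfold Ex
      refine Finset.sum_le_sum fun ω _ => ?_
      by_cases h : A ω
      · rw [if_pos h]
        exact mul_nonneg (hp.nonneg ω) (Nat.cast_nonneg _)
      · rw [if_neg h]
        rw [hA] at h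
        exact mul_le_mul_of_nonneg_left (not_le.1 h).le (hp.nonneg ω)
    have h3 : ∑ ω, (if A ω then 0 else F.p ω * n) =
        (1 - ∑ ω, if A ω then F.p ω else 0) * n := by
      rw [← hp.sum_one, ← Finset.sum_sub_distrib, Finset.sum_mul]
      refine Finset.sum_congr rfl fun ω _ => ?_
      split_ifs
      · simp
      · simp
    rw [h3] at h2
    rw [h1]
    by_contra hcon
    push Not at hcon
    have h4 : δ < 1 - ∑ ω, (if A ω then F.p ω else 0) := by linarith
    have h5 : δ * n < (1 - ∑ ω, (if A ω then F.p ω else 0)) * n :=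
      mul_lt_mul_of_pos_right h4 hn
    linarith
  have hpos : 0 < law F.p A True := by linarith
  have hl := law_cond hp A hpos
  refine ⟨A, hmass, hl, μ, ker_res hμ A True hl, fun h => ?_, fun ω hω a b hab hbJ => ?_, ?_⟩
  · intro ω ω' hω hω' he
    exact hs h ω ω' ((cond_pos_iff hp.nonneg A True ω).1 hω).1
      ((cond_pos_iff hp.nonneg A True ω').1 hω').1 he
  · have h1 := ((cond_pos_iff hp.nonneg A True ω).1 hω).2
    have h2 : A ω := by simpa using h1
    rw [hA] at h2
    have h3 : nbad (μ ω) J K η (F.T ω) a b ≤ nbad (μ ω) J K η (F.T ω) 0 J := by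
      unfold nbad
      refine Finset.card_le_card (Finset.filter_subset_filter _ ?_)
      exact Finset.Ico_subset_Ico (Nat.zero_le _) hbJ
    have h4 : (nbad (μ ω) J K η (F.T ω) a b : ℝ) ≤ nbad (μ ω) J K η (F.T ω) 0 J := by
      exact_mod_cast h3
    have h5 : (nbad (μ ω) J K η (F.T ω) a b : ℝ) ≤ n := h4.trans h2
    show (nbad (μ ω) J K η (F.T ω) a b : ℝ) ≤ n + 0 * ((b : ℝ) - a)
    linarith
  · have h1 := kl_res hμ A hpos hl
    refine h1.trans ?_
    rw [div_le_iff₀ hpos]
    have h2 := kl_nonneg hμ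
    have e2 : Real.log (Fintype.card Prop) = Real.log 2 := by
      rw [Fintype.card_prop]
      norm_num
    rw [e2]
    have h3 : 0 ≤ e + Real.log 2 := by
      have := Real.log_pos one_lt_two
      linarith
    have h4 : (e + Real.log 2) * 1 ≤ (e + Real.log 2) * (2 * law F.p A True) :=
      mul_le_mul_of_nonneg_left (by linarith) h3
    linarith

end Pool.KA.TGV
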