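import Pool.Agent.H67.TG.TBP

/-!
# Times with live windows: two samples
-/

set_option autoImplicit false

namespace Pool.KA

theorem tg_tbp : TGSStmt :=
  fun _ _ F s K η r n e ρ hρ hη hF => TBP.tbp F s K η r n e ρ hρ hη hF

end Pool.KA
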