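import Pool.Agent.H85.TG.Ker

/-!
# Times with live windows: nearly uniform times
-/

set_option autoImplicit false

namespace Pool.KA

open Finset Real
open Pool.Agent.H49.Ent Pool.Agent.H32.Dense Pool.STK

theorem lowk_const (c : ℝ) (q s : ℕ) : lowk (fun _ => c) q s = 2 ^ q * c := by
  simp [lowk]

theorem pn_const_le (c : ℝ) (hc : 0 ≤ c) (J v K t : ℕ) :
    pn (fun _ => c) J v K t ≤ 3 * (2 ^ (J - (v + K)) * c) := by
  classical
  unfold pn
  simp only [lowk_const]
  rw [← Finset.sum_filter, Finset.sum_const, nsmul_eq_mul]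
  refine mul_le_mul_of_nonneg_right ?_ (by positivity)
  set a := t / 2 ^ (J - v) * 2 ^ K
  set b := t / 2 ^ (J - (v + K))
  have hsub : (range (2 ^ K)).filter (fun j => a + j ≤ b + 1 ∧ b ≤ a + j + 1) ⊆
      Finset.Icc (b - 1 - a) (b + 1 - a) := by
    intro j hj
    have h := (Finset.mem_filter.1 hj).2
    rw [Finset.mem_Icc]
    omega
  have h1 := Finset.card_le_card hsub
  rw [Nat.card_Icc] at h1
  have h2 : b + 1 - a + 1 - (b - 1 - a) ≤ 3 := by omega
  exact_mod_cast h1.trans h2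

theorem tg_uni : TGUStmt := by
  classical
  intro m J F s K η e hη he hT
  have hp := F.isLaw.nonneg
  refine ⟨fun _ _ => ((2 : ℝ) ^ J)⁻¹, ⟨fun _ _ => by positivity, ?_, fun _ _ => by positivity,
    fun _ _ _ _ _ => rfl⟩, fun _ _ _ _ _ _ => rfl, ?_, ?_, J * Real.log 2, ?_⟩
  · intro ω
    rw [Finset.sum_const, Finset.card_range, nsmul_eq_mul]
    push_cast
    rw [mul_inv_cancel₀ (by positivity)]
  · intro ω hω a b hab hb
    have h0 : nbad (fun _ => ((2 : ℝ) ^ J)⁻¹) J K η (F.T ω) a b = 0 := by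
      unfold nbad
      rw [Finset.card_eq_zero, Finset.filter_eq_empty_iff]
      rintro v - ⟨hv, h1⟩
      have h2 := pn_const_le (((2 : ℝ) ^ J)⁻¹) (by positivity) J v K (F.T ω)
      have h3 : pm (fun _ => ((2 : ℝ) ^ J)⁻¹) J v (F.T ω) = 2 ^ (J - v) * ((2 : ℝ) ^ J)⁻¹ :=
        lowk_const _ _ _
      rw [h3] at h1
      have e1 : (2 : ℝ) ^ (J - v) = 2 ^ (J - (v + K)) * 2 ^ K := by
        rw [← pow_add]
        congr 1
        omega
      have h4 : 3 * ((2 : ℝ) ^ (J - (v + K)) * ((2 : ℝ) ^ J)⁻¹) ≤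
          η * (2 ^ (J - v) * ((2 : ℝ) ^ J)⁻¹) := by
        rw [e1]
        have h5 : (3 : ℝ) ≤ η * 2 ^ K := by
          have h6 : (0 : ℝ) < 2 ^ K := by positivity
          have h7 := mul_le_mul_of_nonneg_right hη h6.le
          rwa [mul_assoc, inv_mul_cancel₀ h6.ne', mul_one] at h7
        have h8 : (0 : ℝ) ≤ 2 ^ (J - (v + K)) * ((2 : ℝ) ^ J)⁻¹ := by positivity
        have h9 := mul_le_mul_of_nonneg_right h5 h8
        linarith [h9]
      linarith
    rw [h0]
    simp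
  · unfold Fam.kl
    unfold Fam.Tm at hT
    have h1 : Ex F.p (fun _ => -Real.log (((2 : ℝ) ^ J)⁻¹)) = J * Real.log 2 := by
      rw [Ex_const F.isLaw.sum_one, Real.log_inv, Real.log_pow, neg_neg]
    rw [h1]
    linarith
  · intro ω _
    rw [Real.log_inv, Real.log_pow, neg_neg, sub_self, abs_zero]
    exact he

end Pool.KA
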