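import Pool.Agent.H85.TG.Ker
import Pool.Agent.H12.KA.WIN

/-!
# Times with live windows: windows
-/

set_option autoImplicit false

namespace Pool.KA

open Finset Real
open Pool.Agent.H49.Ent Pool.Agent.H32.Dense Pool.STK

namespace TGW85

/-- The conditional law of the last digits, given the first `g` digits of `t`. -/
noncomputable def wink (μ : ℕ → ℝ) (J g t s : ℕ) : ℝ :=
  μ (t / 2 ^ (J - g) * 2 ^ (J - g) + s) / pm μ J g t

theorem lowk_wink (μ : ℕ → ℝ) (J g t q s : ℕ) (hq : q ≤ J - g) :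
    lowk (wink μ J g t) q s =
      lowk μ q (t / 2 ^ (J - g) * 2 ^ (J - g - q) + s) / pm μ J g t := by
  unfold lowk wink
  rw [Finset.sum_div]
  refine Finset.sum_congr rfl fun r _ => ?_
  congr 2
  have e : 2 ^ (J - g) = 2 ^ (J - g - q) * 2 ^ q := by
    rw [← pow_add, Nat.sub_add_cancel hq]
  rw [e]
  ring

/-- Divisions inside a window. -/
theorem mod_div (t a b : ℕ) (h : b ≤ a) :
    t / 2 ^ a * 2 ^ (a - b) + t % 2 ^ a / 2 ^ b = t / 2 ^ b := by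
  have e : 2 ^ a = 2 ^ b * 2 ^ (a - b) := by
    rw [← pow_add]
    congr 1
    omega
  have h1 : t % 2 ^ a / 2 ^ b = t / 2 ^ b % 2 ^ (a - b) := by
    rw [e, Nat.mod_mul_right_div_self]
  have h2 : t / 2 ^ a = t / 2 ^ b / 2 ^ (a - b) := by
    rw [Nat.div_div_eq_div_mul, ← e]
  rw [h1, h2]
  exact Nat.div_add_mod' _ _

theorem pm_win (μ : ℕ → ℝ) (J g v t : ℕ) (hg : g ≤ J) (hv : v ≤ J - g) :
    pm (wink μ J g t) (J - g) v (t % 2 ^ (J - g)) = pm μ J (g + v) t / pm μ J g t := by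
  have e1 : J - g - v = J - (g + v) := by omega
  have h : pm (wink μ J g t) (J - g) v (t % 2 ^ (J - g)) =
      lowk (wink μ J g t) (J - g - v) (t % 2 ^ (J - g) / 2 ^ (J - g - v)) := rfl
  rw [h, lowk_wink _ _ _ _ _ _ (by omega)]
  have e2 : J - g - (J - g - v) = v := by omega
  have e3 := mod_div t (J - g) (J - g - v) (by omega)
  rw [e2] at e3
  rw [e2, e3, e1]
  rfl

theorem pn_win (μ : ℕ → ℝ) (J g v K t : ℕ) (hg : g ≤ J) (hv : v + K ≤ J - g) :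
    pn (wink μ J g t) (J - g) v K (t % 2 ^ (J - g)) = pn μ J (g + v) K t / pm μ J g t := by
  classical
  unfold pn
  rw [Finset.sum_div]
  have e0 : J - g - (v + K) = J - (g + v + K) := by omega
  have e1 : J - g - v = J - (g + v) := by omega
  have a1 := mod_div t (J - g) (J - (g + v)) (by omega)
  have a2 := mod_div t (J - g) (J - (g + v + K)) (by omega)
  have b1 : J - g - (J - (g + v)) = v := by omega
  have b2 : J - g - (J - (g + v + K)) = v + K := by omega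
  rw [b1] at a1
  rw [b2] at a2
  rw [e0, e1]
  have hc : t / 2 ^ (J - g) * 2 ^ (v + K) = t / 2 ^ (J - g) * 2 ^ v * 2 ^ K := by
    rw [pow_add]
    ring
  refine Finset.sum_congr rfl fun j _ => ?_
  have h1 : (t % 2 ^ (J - g) / 2 ^ (J - (g + v)) * 2 ^ K + j ≤
      t % 2 ^ (J - g) / 2 ^ (J - (g + v + K)) + 1 ∧
      t % 2 ^ (J - g) / 2 ^ (J - (g + v + K)) ≤
      t % 2 ^ (J - g) / 2 ^ (J - (g + v)) * 2 ^ K + j + 1) ↔
      (t / 2 ^ (J - (g + v)) * 2 ^ K + j ≤ t / 2 ^ (J - (g + v + K)) + 1 ∧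
      t / 2 ^ (J - (g + v + K)) ≤ t / 2 ^ (J - (g + v)) * 2 ^ K + j + 1) := by
    rw [← a1, ← a2, hc, add_mul]
    constructor
    · rintro ⟨h1, h2⟩
      constructor <;> omega
    · rintro ⟨h1, h2⟩
      constructor <;> omega
  by_cases hP : (t / 2 ^ (J - (g + v)) * 2 ^ K + j ≤ t / 2 ^ (J - (g + v + K)) + 1 ∧
      t / 2 ^ (J - (g + v + K)) ≤ t / 2 ^ (J - (g + v)) * 2 ^ K + j + 1)
  · rw [if_pos (h1.2 hP), if_pos hP, lowk_wink _ _ _ _ _ _ (by omega)]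
    have b3 : J - g - (J - (g + v + K)) = v + K := b2
    rw [b3, hc, ← a1, add_mul]
    congr 2
    ring
  · rw [if_neg (fun h => hP (h1.1 h)), if_neg hP, zero_div]


theorem nbad_win (μ : ℕ → ℝ) (J g K t a b : ℕ) (η : ℝ) (hg : g ≤ J) (hμ : 0 < pm μ J g t) :
    nbad (wink μ J g t) (J - g) K η (t % 2 ^ (J - g)) a b ≤ nbad μ J K η t (a + g) (b + g) := by
  classical
  unfold nbad
  refine Finset.card_le_card_of_injOn (fun v => v + g) ?_ (fun v _ v' _ h => by simpa using h)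
  intro v hv
  obtain ⟨h1, h2, h3⟩ := Finset.mem_filter.1 (Finset.mem_coe.1 hv)
  rw [Finset.mem_Ico] at h1
  show v + g ∈ _
  refine Finset.mem_coe.2 (Finset.mem_filter.2 ⟨Finset.mem_Ico.2 ⟨by omega, by omega⟩, by omega, ?_⟩)
  rw [pn_win μ J g v K t hg h2, pm_win μ J g v t hg (by omega)] at h3
  have h4 : η * (pm μ J (g + v) t / pm μ J g t) = η * pm μ J (g + v) t / pm μ J g t := by ring
  rw [h4, div_lt_div_iff_of_pos_right hμ] at h3
  rw [add_comm v g]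
  exact h3

theorem sum_wink (μ : ℕ → ℝ) (J g t : ℕ) : ∑ s ∈ range (2 ^ (J - g)), wink μ J g t s ≤ 1 := by
  unfold wink
  rw [← Finset.sum_div]
  exact div_self_le_one _

theorem wink_T (μ : ℕ → ℝ) (J g t : ℕ) : wink μ J g t (t % 2 ^ (J - g)) = μ t / pm μ J g t := by
  unfold wink
  rw [Nat.div_add_mod']

variable {m J : ℕ}

theorem klv_nonneg {F : Fam m J} {μ : F.Ω → ℕ → ℝ} (h : F.Ker μ) {v : ℕ} (hv : v ≤ J) :
    0 ≤ F.klv μ v := by
  refine le_trans ?_ (h.klv_mono (Nat.zero_le v) hv)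
  have hp := F.isLaw.nonneg
  unfold Fam.klv
  have h0 : ∀ ω, F.T1 0 ω = 0 := by
    intro ω
    unfold Fam.T1
    exact Nat.div_eq_of_lt (F.tim ω)
  have h1 : CH F.p (F.T1 0) (fun ω => (F.l ω, F.Z ω)) = 0 :=
    CH_eq_zero hp fun ω ω' _ _ _ => by rw [h0, h0]
  rw [h1, sub_zero]
  refine Ex_nonneg hp fun ω hω => ?_
  have h2 : pm (μ ω) J 0 (F.T ω) ≤ 1 := by
    have h3 : F.T ω / 2 ^ (J - 0) = 0 := h0 ω
    unfold pm
    rw [h3]
    have h4 : lowk (μ ω) (J - 0) 0 = ∑ t ∈ range (2 ^ J), μ ω t := by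
      simp [lowk]
    rw [h4]
    exact h.sum ω
  have h5 := Real.log_nonpos (pm_nonneg (h.nonneg ω) _ _ _) h2
  linarith

/-- The line and the side information of the window. -/
theorem win_det (F : Fam m J) (g : ℕ) {ω ω' : F.Ω}
    (h : ((F.win g).l ω, (F.win g).Z ω) = ((F.win g).l ω', (F.win g).Z ω')) :
    F.T1 g ω = F.T1 g ω' ∧ (F.l ω, F.Z ω) = (F.l ω', F.Z ω') := by
  have hl : (F.win g).l ω = (F.win g).l ω' := (Prod.ext_iff.mp h).1
  have hZ : F.c g ω = F.c g ω' := (Prod.ext_iff.mp h).2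
  have h1 : F.T1 g ω = F.T1 g ω' := (Prod.ext_iff.mp (Prod.ext_iff.mp hZ).1).1
  have h2 : fl g (F.x1 g ω) = fl g (F.x1 g ω') := (Prod.ext_iff.mp (Prod.ext_iff.mp hZ).1).2
  have h3 : F.Z ω = F.Z ω' := (Prod.ext_iff.mp hZ).2
  have hd : F.d ω = F.d ω' := (Prod.ext_iff.mp hl).2
  have hu : (fun i => Int.fract (2 ^ g * F.x1 g ω i)) =
      (fun i => Int.fract (2 ^ g * F.x1 g ω' i)) := (Prod.ext_iff.mp hl).1
  refine ⟨h1, ?_⟩
  have hx : ∀ i, F.x1 g ω i = F.x1 g ω' i := by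
    intro i
    have e1 : Int.fract (2 ^ g * F.x1 g ω i) = Int.fract (2 ^ g * F.x1 g ω' i) := congrFun hu i
    have e2 : ⌊(2 : ℝ) ^ g * F.x1 g ω i⌋ = ⌊(2 : ℝ) ^ g * F.x1 g ω' i⌋ := congrFun h2 i
    have e3 := Int.floor_add_fract ((2 : ℝ) ^ g * F.x1 g ω i)
    have e4 := Int.floor_add_fract ((2 : ℝ) ^ g * F.x1 g ω' i)
    have e5 : (2 : ℝ) ^ g * F.x1 g ω i = 2 ^ g * F.x1 g ω' i := by
      rw [← e3, ← e4, e1, e2]
    exact mul_left_cancel₀ (by positivity) e5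
  have huu : F.u ω = F.u ω' := by
    funext i
    have e1 := hx i
    unfold Fam.x1 at e1
    rw [hd, h1] at e1
    linarith
  unfold Fam.l
  rw [huu, hd, h3]

theorem kl_win {F : Fam m J} {μ : F.Ω → ℕ → ℝ} (h : F.Ker μ) (g : ℕ) (hg : g ≤ J) :
    (F.win g).kl (fun ω => wink (μ ω) J g (F.T ω)) ≤ F.kl μ := by
  have hp := F.isLaw.nonneg
  have e1 : Ex (F.win g).p (fun ω => -Real.log (wink (μ ω) J g (F.T ω) ((F.win g).T ω))) =
      Ex F.p (fun ω => -Real.log (pm (μ ω) J J (F.T ω) / pm (μ ω) J g (F.T ω))) := by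
    refine Ex_congr_pos hp fun ω _ => ?_
    have e2 : (F.win g).T ω = F.T ω % 2 ^ (J - g) := rfl
    rw [e2, wink_T, pm_top _ le_rfl]
  have h1 := h.klv_le hg (le_refl J)
  have h2 : F.T1 J = F.T := by
    funext ω
    simp [Fam.T1]
  rw [h2, Fam.klv_top] at h1
  have h3 : CH F.p F.T (fun ω => (F.T1 g ω, (F.l ω, F.Z ω))) ≤
      CH F.p (fun ω => F.T ω % 2 ^ (J - g)) (fun ω => (F.T1 g ω, (F.l ω, F.Z ω))) := by
    refine CH_mono_left hp ?_
    intro ω ω' _ _ h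
    simp only [Prod.mk.injEq] at h
    exact Win.T_det F g h.2.1 h.1
  have h4 : CH F.p (fun ω => F.T ω % 2 ^ (J - g)) (fun ω => (F.T1 g ω, (F.l ω, F.Z ω))) ≤
      CH F.p (fun ω => F.T ω % 2 ^ (J - g)) (fun ω => ((F.win g).l ω, (F.win g).Z ω)) := by
    refine CH_mono_cond hp ?_
    intro ω ω' _ _ h
    simp only [Fam.l, Prod.mk.injEq] at h
    obtain ⟨h1, ⟨hu, hd⟩, hZ⟩ := h
    have hx := Win.x1_det F g hu hd h1
    simp only [Fam.l, Fam.win, Fam.c, Prod.mk.injEq]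
    refine ⟨⟨?_, hd⟩, ⟨h1, ?_⟩, hZ⟩
    · rw [hx]
    · rw [hx]
  have h5 : CH F.p (fun ω => F.T ω % 2 ^ (J - g))
      (fun ω => ((F.win g).l ω, (F.win g).Z ω)) =
      CH (F.win g).p (F.win g).T (fun ω => ((F.win g).l ω, (F.win g).Z ω)) := rfl
  have h6 := klv_nonneg h hg
  unfold Fam.kl at h1 ⊢
  rw [e1, ← h5]
  linarith

theorem ker_win {F : Fam m J} {μ : F.Ω → ℕ → ℝ} (h : F.Ker μ) (g : ℕ) :
    (F.win g).Ker (fun ω => wink (μ ω) J g (F.T ω)) where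
  nonneg := fun ω s => div_nonneg (h.nonneg ω _) (pm_nonneg (h.nonneg ω) _ _ _)
  sum := fun ω => sum_wink _ _ _ _
  pos := by
    intro ω hω
    have e2 : (F.win g).T ω = F.T ω % 2 ^ (J - g) := rfl
    show 0 < wink (μ ω) J g (F.T ω) ((F.win g).T ω)
    rw [e2, wink_T]
    exact div_pos (h.pos ω hω) (h.pm_pos hω g)
  det := by
    intro ω ω' hω hω' he
    obtain ⟨h1, h2⟩ := win_det F g he
    have e1 : μ ω = μ ω' := h.det ω ω' hω hω' h2
    funext s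
    show wink (μ ω) J g (F.T ω) s = wink (μ ω') J g (F.T ω') s
    have e3 : F.T ω / 2 ^ (J - g) = F.T ω' / 2 ^ (J - g) := h1
    unfold wink
    rw [e1, e3, pm_congr (μ ω') J g e3]

end TGW85

open TGW85 in
/-- Windows. -/
theorem tg_win : TGWStmt := by
  intro m J F s g hg K η r n e ⟨μ, hK, hs, hL, hkl⟩
  refine ⟨fun ω => wink (μ ω) J g (F.T ω), ker_win hK g, ?_, ?_, (kl_win hK g hg).trans hkl⟩
  · intro h ω ω' hω hω' he
    have hZ : F.c g ω = F.c g ω' := he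
    have h1 : F.T1 g ω = F.T1 g ω' := (Prod.ext_iff.mp (Prod.ext_iff.mp hZ).1).1
    have h3 : F.Z ω = F.Z ω' := (Prod.ext_iff.mp hZ).2
    have e1 : μ ω = μ ω' := hs h ω ω' hω hω' h3
    have e3 : F.T ω / 2 ^ (J - g) = F.T ω' / 2 ^ (J - g) := h1
    funext s
    show wink (μ ω) J g (F.T ω) s = wink (μ ω') J g (F.T ω') s
    unfold wink
    rw [e1, e3, pm_congr (μ ω') J g e3]
  · intro ω hω a b hab hb
    have h1 := nbad_win (μ ω) J g K (F.T ω) a b η hg (hK.pm_pos hω g)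
    have h2 := hL ω hω (a + g) (b + g) (by omega) (by omega)
    push_cast at h2
    have h3 : (nbad (wink (μ ω) J g (F.T ω)) (J - g) K η (F.T ω % 2 ^ (J - g)) a b : ℝ) ≤
        (nbad (μ ω) J K η (F.T ω) (a + g) (b + g) : ℝ) := by exact_mod_cast h1
    show (nbad (wink (μ ω) J g (F.T ω)) (J - g) K η (F.T ω % 2 ^ (J - g)) a b : ℝ) ≤
        n + r * ((b : ℝ) - a)
    linarith

end Pool.KA
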