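import Pool.Agent.H85.TG.DSU
import Pool.Agent.H85.TG.WIN
import Pool.Agent.H85.TG.UNI
import Pool.Agent.H85.TG.TBP
import Pool.Agent.H85.TG.Liv
import Pool.Agent.H92.TG.LOW
import Pool.Agent.H70.TG.Ext
import Pool.Agent.H34.TG.MON
import Pool.Agent.H34.TG.TYP
import Pool.Agent.H40.TG.NBR

/-!
# Times with live windows: all modules
-/

set_option autoImplicit false

namespace Pool.KA.TG

theorem mon : TGMStmt := tg_mon
theorem uni : TGUStmt := tg_uni
theorem win : TGWStmt := tg_win
theorem low : TGLStmt := TGL92.tgl_thm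
theorem cnd : TGCStmt := tgc_thm
theorem ext : TGXStmt := tgx_thm
theorem typ : TGTStmt := tg_typ
theorem res : TGEStmt := tg_res
theorem liv : TGVStmt := TGV.tgv_thm
theorem nbr : TGNStmt := Nbr.tg_nbr
theorem tbp : TGSStmt := tg_tbp
theorem drs : TGDRStmt := tg_drs
theorem dsu : TGDSStmt := tg_dsu

end Pool.KA.TG
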