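import Pool.Agent.H9.K2.Stmts2

/-!
# Families of lines with a random time: times with many live windows

Instead of being nearly uniform, the law of the time given the line and the side information has a
small relative entropy with respect to a kernel `μ`, and, along every path of the support, in all
windows but a few the next `K` digits (and the two neighbouring values) have small probability
under `μ`.
-/

set_option autoImplicit false

namespace Pool.KA

open Finset Real
open Pool.Agent.H49.Ent Pool.Agent.H32.Dense Pool.STK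

/-- The image of a function under division by `2 ^ q`. -/
noncomputable def lowk (μ : ℕ → ℝ) (q s : ℕ) : ℝ := ∑ r ∈ range (2 ^ q), μ (s * 2 ^ q + r)

/-- The mass of the window of length `2 ^ (-v)` which contains the time `t`, at resolution `J`. -/
noncomputable def pm (μ : ℕ → ℝ) (J v t : ℕ) : ℝ := lowk μ (J - v) (t / 2 ^ (J - v))

open Classical in
/-- The mass of the subwindows of length `2 ^ (-(v + K))` of the window of length `2 ^ (-v)` of
`t`, which contain `t` or are neighbours of the subwindow of `t`. -/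
noncomputable def pn (μ : ℕ → ℝ) (J v K t : ℕ) : ℝ :=
  ∑ j ∈ range (2 ^ K), if t / 2 ^ (J - v) * 2 ^ K + j ≤ t / 2 ^ (J - (v + K)) + 1 ∧
    t / 2 ^ (J - (v + K)) ≤ t / 2 ^ (J - v) * 2 ^ K + j + 1 then
      lowk μ (J - (v + K)) (t / 2 ^ (J - v) * 2 ^ K + j) else 0

open Classical in
/-- The number of the windows of `t` in `[a, b)` in which the next `K` digits of `t`, with their
neighbours, have conditional mass more than `η`. -/
noncomputable def nbad (μ : ℕ → ℝ) (J K : ℕ) (η : ℝ) (t a b : ℕ) : ℕ :=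
  ((Ico a b).filter fun v => v + K ≤ J ∧ η * pm μ J v t < pn μ J v K t).card

variable {m J : ℕ}

/-- A kernel from the lines and the side information to the times. -/
structure Fam.Ker (F : Fam m J) (μ : F.Ω → ℕ → ℝ) : Prop where
  nonneg : ∀ ω t, 0 ≤ μ ω t
  sum : ∀ ω, ∑ t ∈ range (2 ^ J), μ ω t ≤ 1
  pos : ∀ ω, 0 < F.p ω → 0 < μ ω (F.T ω)
  det : Det F.p (fun ω => (F.l ω, F.Z ω)) μ

/-- The relative entropy of the time, given the line and the side information. -/
noncomputable def Fam.kl (F : Fam m J) (μ : F.Ω → ℕ → ℝ) : ℝ :=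
  Ex F.p (fun ω => -Real.log (μ ω (F.T ω))) - CH F.p F.T (fun ω => (F.l ω, F.Z ω))

/-- Along every path of the support, all windows but a few are live: at most
`n + r * (b - a)` windows of every interval `[a, b)` are not. -/
def Fam.Live (F : Fam m J) (μ : F.Ω → ℕ → ℝ) (K : ℕ) (η r n : ℝ) : Prop :=
  ∀ ω, 0 < F.p ω → ∀ a b : ℕ, a ≤ b → b ≤ J →
    (nbad (μ ω) J K η (F.T ω) a b : ℝ) ≤ n + r * ((b : ℝ) - a)

/-- The logarithm of the kernel is constant up to `e`. -/
def Fam.Rk (F : Fam m J) (μ : F.Ω → ℕ → ℝ) (e : ℝ) : Prop :=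
  ∃ M : ℝ, ∀ ω, 0 < F.p ω → |-Real.log (μ ω (F.T ω)) - M| ≤ e

/-- **Times with live windows**, in the mean. Two variants: if `s`, then the kernel depends on the
side information only; otherwise it may depend on the line, too. -/
def Fam.TG (F : Fam m J) (s : Prop) (K : ℕ) (η r n e : ℝ) : Prop :=
  ∃ μ : F.Ω → ℕ → ℝ, F.Ker μ ∧ (s → Det F.p F.Z μ) ∧ F.Live μ K η r n ∧ F.kl μ ≤ e

/-- **Times with live windows**, regular. -/
def Fam.TGR (F : Fam m J) (s : Prop) (K : ℕ) (η r n e : ℝ) : Prop :=
  ∃ μ : F.Ω → ℕ → ℝ, F.Ker μ ∧ (s → Det F.p F.Z μ) ∧ F.Live μ K η r n ∧ F.kl μ ≤ e ∧ F.Rk μ e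

/-- A class of regular families whose times have live windows; `K`, the threshold and portion `η`
of the dead windows and the mesh `z` are fixed, the parameter measures the other defects. -/
structure FCg (m : ℕ) (s : Prop) (K : ℕ) (η z : ℝ) where
  /-- the families with defect at most `τ` -/
  T : ℝ → ∀ J : ℕ, Fam m J → Prop
  mono : ∀ {τ τ' : ℝ} {J : ℕ} {F : Fam m J}, τ ≤ τ' → T τ J F → T τ' J F
  tr : ∀ {τ : ℝ} {J : ℕ} {F : Fam m J}, T τ J F → F.Tr
  tg : ∀ {τ : ℝ} {J : ℕ} {F : Fam m J}, T τ J F → F.TGR s K η η (z * J) (τ * J)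
  rb : ∀ {τ : ℝ} {J : ℕ} {F : Fam m J}, T τ J F → F.Rb (τ * J)

end Pool.KA
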