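import Pool.Agent.H85.TG.Defs

/-!
# Times with live windows: statements of the modules
-/

set_option autoImplicit false

namespace Pool.KA

open Finset Real
open Pool.Agent.H49.Ent Pool.Agent.H32.Dense Pool.STK

/-- **(MON)** Monotonicity. -/
def TGMStmt : Prop :=
  ∀ (m J : ℕ) (F : Fam m J) (s : Prop) (K K' : ℕ) (η η' r r' n n' e e' : ℝ),
    K ≤ K' → η ≤ η' → r ≤ r' → n ≤ n' → e ≤ e' → (F.TG s K η r n e → F.TG s K' η' r' n' e') ∧
    (F.TGR s K η r n e → F.TGR s K' η' r' n' e')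

/-- **(UNI)** Nearly uniform times. -/
def TGUStmt : Prop :=
  ∀ (m J : ℕ) (F : Fam m J) (s : Prop) (K : ℕ) (η e : ℝ), 3 * ((2 : ℝ) ^ K)⁻¹ ≤ η → 0 ≤ e →
    F.Tm e → F.TGR s K η 0 0 e

/-- **(WIN)** Windows. The kernel is the conditional one. -/
def TGWStmt : Prop :=
  ∀ (m J : ℕ) (F : Fam m J) (s : Prop) (g : ℕ), g ≤ J → ∀ (K : ℕ) (η r n e : ℝ),
    F.TG s K η r n e → (F.win g).TG s K η r n e

/-- **(LOW)** Tubes and lower resolution. The kernel is the image. -/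
def TGLStmt : Prop :=
  ∀ (m J : ℕ) (F : Fam m J) (s : Prop) (K : ℕ) (η r n e : ℝ), F.TG s K η r n e →
    (∀ (q : ℕ) (hq : q ≤ J), (F.tub q hq).TG s K η r n e) ∧
    ∀ (x : ℕ) (hx : x ≤ J), (F.trc x hx).TG s K η r n e

/-- **(CND)** Additional side information. -/
def TGCStmt : Prop :=
  ∀ (m J : ℕ) (F : Fam m J) (s : Prop) (κ : Type) (z : F.Ω → κ) (K : ℕ) (η r n e e' : ℝ),
    F.TG s K η r n e →
    CH F.p z (fun ω => (F.l ω, F.Z ω)) ≤ CH F.p z (fun ω => (F.T ω, (F.l ω, F.Z ω))) + e' →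
    (F.cnd z).TG s K η r n (e + e')

/-- **(EXT)** Larger sample spaces. -/
def TGXStmt : Prop :=
  ∀ (m J : ℕ) (F : Fam m J) (s : Prop) (Ω' : Type) [Fintype Ω'] (q : Ω' → ℝ) (hq : IsLaw q)
    (pr : Ω' → F.Ω), Marg q F.p pr → ∀ (K : ℕ) (η r n e : ℝ),
    (F.TG s K η r n e → (F.ext q hq pr).TG s K η r n e) ∧
    (F.TGR s K η r n e → (F.ext q hq pr).TGR s K η r n e)

/-- **(TYP)** Types. -/
def TGTStmt : Prop :=
  ∀ (m J : ℕ) (F : Fam m J) (s : Prop) (κ : Type) [Fintype κ] (A : F.Ω → κ) (K : ℕ)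
    (η r n e : ℝ), F.TG s K η r n e → ∀ a, 0 < law F.p A a → ∃ h : IsLaw (cond F.p A a),
      (F.res A a h).TG s K η r n ((e + Real.log (Fintype.card κ)) / law F.p A a)

/-- **(RES)** Events of probability at least `exp (-c)` in regular families. -/
def TGEStmt : Prop :=
  ∀ (m J : ℕ) (F : Fam m J) (s : Prop) (K : ℕ) (η r n e e₀ c : ℝ), 0 ≤ c → F.Tr → F.Rb e₀ →
    F.TGR s K η r n e → ∀ A : F.Ω → Prop, Real.exp (-c) ≤ law F.p A True →
      ∃ h : IsLaw (cond F.p A True), (F.res A True h).TGR s K η r n (3 * e + 4 * e₀ + c)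

/-- **(LIV)** From windows which are live in the mean. -/
def TGVStmt : Prop :=
  ∀ (m J : ℕ) (F : Fam m J) (s : Prop) (μ : F.Ω → ℕ → ℝ) (K : ℕ) (η n e δ : ℝ), 0 < n →
    0 < δ → δ ≤ 1 / 2 → F.Ker μ → (s → Det F.p F.Z μ) → F.kl μ ≤ e →
    Ex F.p (fun ω => (nbad (μ ω) J K η (F.T ω) 0 J : ℝ)) ≤ δ * n →
    ∃ A : F.Ω → Prop, 1 - δ ≤ law F.p A True ∧ ∃ h : IsLaw (cond F.p A True),
      (F.res A True h).TG s K η 0 n (2 * (e + Real.log 2))

open Classical in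
/-- **(NBR)** From atoms to neighbours: if the kernel has no atoms of size more than `1 - c` on the
blocks `(i K, (i + 1) K]` of the path, in the mean over the paths and for most `i`, then the
windows of `2 * R * K + K` digits are live in the mean. -/
def TGNStmt : Prop :=
  ∀ (m J : ℕ) (F : Fam m J) (μ : F.Ω → ℕ → ℝ) (K R : ℕ) (c η η' n e ρ : ℝ), 1 ≤ K → 1 ≤ R →
    0 < c → c ≤ 1 → 0 < η → 0 < ρ → (1 - c) ^ R ≤ η' → F.Ker μ → F.kl μ ≤ e →
    Ex F.p (fun ω => (((range (J / K)).filter fun i =>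
      (1 - c) * pm (μ ω) J (i * K) (F.T ω) < pm (μ ω) J ((i + 1) * K) (F.T ω)).card : ℝ)) ≤ n →
    Ex F.p (fun ω => (nbad (μ ω) J ((2 * R + 1) * K) η (F.T ω) 0 J : ℝ)) ≤
      (6 * K * n + (3 * η' + 4 * ρ) * J + 4 * ((2 * R + 1) * K) * e / ρ) / η

open Classical in
/-- **(TBP)** Two samples of the time, given the line, the side information and a window: for every
sample of the first one (up to an error `g` which is small in the mean), the second one is at a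
distance at least `2 ^ (-(v + K))` with large probability, in all windows `v` but a few. -/
def TGSStmt : Prop :=
  ∀ (m J : ℕ) (F : Fam m J) (s : Prop) (K : ℕ) (η r n e ρ : ℝ), 0 < ρ → 0 ≤ η →
    F.TG s K η r n e → ∃ g : F.Ω → ℝ, (∀ ω, 0 ≤ g ω) ∧ Ex F.p g ≤ ρ * J + K * e / ρ ∧
      ∀ ω, 0 < F.p ω → ∀ a b : ℕ, a ≤ b → b ≤ J →
        (∑ v ∈ (Ico a b).filter (fun v => v + K ≤ J),
          ∑ w, if |(F.T w : ℝ) - F.T ω| < 2 ^ (J - (v + K)) then
            cond F.p (fun w => (F.T1 v w, (F.l w, F.Z w))) (F.T1 v ω, (F.l ω, F.Z ω)) w else 0) ≤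
        n + (r + η) * ((b : ℝ) - a) + g ω

end Pool.KA
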