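import Pool.Agent.H85.TG.Defs2
import Pool.Agent.H85.TG.Stmts

/-!
# Times with live windows, pointwise: statements of the modules
-/

set_option autoImplicit false

namespace Pool.KA

open Finset Real
open Pool.Agent.H49.Ent Pool.Agent.H32.Dense Pool.STK

/-- **(DRS)** All events, no regularity. -/
def TGDRStmt : Prop :=
  ∀ (m J : ℕ) (F : Fam m J) (s : Prop) (K : ℕ) (η r n e c : ℝ), F.TGD s K η r n e →
    ∀ (κ : Type) (A : F.Ω → κ) (a : κ), Real.exp (-c) ≤ law F.p A a →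
      ∃ h : IsLaw (cond F.p A a), (F.res A a h).TG s K η r n (e + c)

/-- **(DEX)** Most of a family is dominated. -/
def TGDXStmt : Prop :=
  ∀ (m J : ℕ) (F : Fam m J) (s : Prop) (K : ℕ) (η r n e δ : ℝ), 0 < δ → δ ≤ 1 / 4 →
    F.TG s K η r n e → ∃ A : F.Ω → Prop, 1 - 3 * δ ≤ law F.p A True ∧
      ∃ h : IsLaw (cond F.p A True), (F.res A True h).TGD s K η r n ((e + 1) / δ + Real.log 2)

/-- **(DSU)** Half of any event is dominated. -/
def TGDSStmt : Prop :=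
  ∀ (m J : ℕ) (F : Fam m J) (s : Prop) (K : ℕ) (η r n e : ℝ), F.TGD s K η r n e →
    ∀ U : F.Ω → Prop, 0 < law F.p U True → ∃ U' : F.Ω → Prop, (∀ ω, U' ω → U ω) ∧
      law F.p U True / 2 ≤ law F.p U' True ∧ ∃ h : IsLaw (cond F.p U' True),
        (F.res U' True h).TGD s K η r n (e + Real.log (2 / law F.p U True))

end Pool.KA

namespace Pool.LK

open Finset Real
open Pool.Agent.H49.Ent Pool.Agent.H32.Dense Pool.STK Pool.KA

/-- **(VEX)** If the label inequality fails, then the class is not empty. -/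
def VEXStmt : Prop :=
  ∀ (m : ℕ) (b : ℝ), 1 ≤ b → ¬ LKG m b → ∃ R : ℝ, 0 < R ∧ ∀ η > 0, ∃ K : ℕ, ∀ τ > 0, ∀ J₀ : ℕ,
    ∃ J ≥ J₀, ∃ F : Fam m J, Clv F b K η R τ

end Pool.LK
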